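import Mathlib

namespace Pool.Agent.Lib.MP_cadcf7_co

open SimpleGraph

/-- A rotation system of a simple graph `G`: a permutation `rot` of the darts of `G` (ordered pairs
of adjacent vertices) which keeps the first vertex of a dart and permutes the darts leaving each
vertex in one single cycle.  This is the combinatorial description of a cellular embedding of `G`
in an oriented surface: `rot` turns a dart around its first vertex to the next dart. -/
structure RotationSystem {V : Type} (G : SimpleGraph V) where
  rot : Equiv.Perm G.Dart
  rot_fst : ∀ d, (rot d).fst = d.fst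
  cyclic : ∀ d e : G.Dart, d.fst = e.fst → rot.SameCycle d e

namespace RotationSystem

variable {V : Type} {G : SimpleGraph V} (R : RotationSystem G)

/-- The face permutation: from the dart `u → v` go to the dart that follows `v → u` in the rotation
around `v`.  Its orbits are the boundary walks of the faces. -/
def facePerm : Equiv.Perm G.Dart where
  toFun d := R.rot d.symm
  invFun d := (R.rot.symm d).symm
  left_inv d := by simp
  right_inv d := by simp

/-- The faces of the embedding: the orbits of the face permutation. -/
def Face : Type := Quotient (Equiv.Perm.SameCycle.setoid R.facePerm)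

/-- The embedding is a plane embedding of a connected graph: `|V| - |E| + |F| = 2`. -/
def IsPlane : Prop :=
  G.Connected ∧ (Nat.card V : ℤ) - (Nat.card G.edgeSet : ℤ) + (Nat.card R.Face : ℤ) = 2

/-- `R.IsTri i j k F`: the face `F` is a triangle (its boundary walk has length three) and the
degrees of its three vertices are `i`, `j`, `k` as a multiset. -/
def IsTri [Fintype V] [DecidableRel G.Adj] (i j k : ℕ) (F : R.Face) : Prop :=
  ∃ d : G.Dart, Quotient.mk _ d = F ∧ R.facePerm (R.facePerm (R.facePerm d)) = d ∧
    ({G.degree d.fst, G.degree (R.facePerm d).fst,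
      G.degree (R.facePerm (R.facePerm d)).fst} : Multiset ℕ) = {i, j, k}

/-- `R.f i j k` is the number of triangular faces whose vertices have degrees `i`, `j`, `k`. -/
noncomputable def f [Fintype V] [DecidableRel G.Adj] (i j k : ℕ) : ℕ :=
  Nat.card {F : R.Face // R.IsTri i j k F}

end RotationSystem

/-- The inequality `(∗_c)` holds for all finite connected plane graphs of minimum degree at
least `5`. -/
def StarHolds (c : ℝ) : Prop :=
  ∀ (V : Type) [Fintype V] (G : SimpleGraph V) [DecidableRel G.Adj] (R : RotationSystem G),
    R.IsPlane → (∀ v, 5 ≤ G.degree v) →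
      144 ≤ 18 * (R.f 5 5 5 : ℝ) + 9 * (R.f 5 5 6 : ℝ) + c * (R.f 5 5 7 : ℝ)
        + 4 * (R.f 5 6 6 : ℝ)

end Pool.Agent.Lib.MP_cadcf7_co
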