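import Pool.Agent.Lib.MP_cadcf7_co.Table

namespace Pool.Agent.Lib.MP_cadcf7_co

/-- the cyclic neighbour lists of the example (114 vertices) -/
def tab : List (List ℕ) :=
  [[1, 2, 3, 4, 5, 6, 7, 8],
   [2, 0, 8, 9, 10],
   [0, 1, 10, 11, 3],
   [0, 2, 11, 12, 4],
   [0, 3, 12, 13, 5],
   [0, 4, 13, 14, 6],
   [0, 5, 14, 15, 7],
   [0, 6, 15, 16, 8],
   [0, 7, 16, 9, 1],
   [10, 1, 8, 16, 17, 18, 19],
   [2, 1, 9, 19, 20, 21, 11],
   [10, 21, 22, 23, 12, 3, 2],
   [11, 23, 24, 25, 13, 4, 3],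
   [12, 25, 26, 27, 14, 5, 4],
   [13, 27, 28, 29, 15, 6, 5],
   [14, 29, 30, 31, 16, 7, 6],
   [15, 31, 32, 17, 9, 8, 7],
   [9, 16, 32, 33, 18],
   [17, 33, 34, 35, 19, 9],
   [20, 10, 9, 18, 35],
   [10, 19, 35, 36, 37, 21],
   [11, 10, 20, 37, 22],
   [21, 37, 38, 39, 23, 11],
   [12, 11, 22, 39, 24],
   [23, 39, 40, 41, 25, 12],
   [13, 12, 24, 41, 26],
   [25, 41, 42, 43, 27, 13],
   [14, 13, 26, 43, 28],
   [27, 43, 44, 45, 29, 14],
   [15, 14, 28, 45, 30],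
   [29, 45, 46, 47, 31, 15],
   [16, 15, 30, 47, 32],
   [31, 47, 48, 33, 17, 16],
   [17, 32, 48, 49, 50, 34, 18],
   [33, 50, 51, 35, 18],
   [36, 20, 19, 18, 34, 51, 52],
   [20, 35, 52, 53, 37],
   [21, 20, 36, 53, 54, 38, 22],
   [37, 54, 55, 39, 22],
   [23, 22, 38, 55, 56, 40, 24],
   [39, 56, 57, 41, 24],
   [25, 24, 40, 57, 58, 42, 26],
   [41, 58, 59, 43, 26],
   [27, 26, 42, 59, 60, 44, 28],
   [43, 60, 61, 45, 28],
   [29, 28, 44, 61, 62, 46, 30],
   [45, 62, 63, 47, 30],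
   [31, 30, 46, 63, 64, 48, 32],
   [47, 64, 49, 33, 32],
   [33, 48, 64, 65, 66, 50],
   [33, 49, 66, 67, 51, 34],
   [35, 34, 50, 67, 68, 52],
   [53, 36, 35, 51, 68, 69],
   [37, 36, 52, 69, 70, 54],
   [37, 53, 70, 71, 55, 38],
   [39, 38, 54, 71, 72, 56],
   [39, 55, 72, 73, 57, 40],
   [41, 40, 56, 73, 74, 58],
   [41, 57, 74, 75, 59, 42],
   [43, 42, 58, 75, 76, 60],
   [43, 59, 76, 77, 61, 44],
   [45, 44, 60, 77, 78, 62],
   [45, 61, 78, 79, 63, 46],
   [47, 46, 62, 79, 80, 64],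
   [47, 63, 80, 65, 49, 48],
   [64, 80, 81, 66, 49],
   [81, 82, 83, 67, 50, 49, 65],
   [50, 66, 83, 68, 51],
   [84, 69, 52, 51, 67, 83, 85],
   [68, 84, 70, 53, 52],
   [84, 86, 87, 71, 54, 53, 69],
   [54, 70, 87, 72, 55],
   [87, 88, 89, 73, 56, 55, 71],
   [56, 72, 89, 74, 57],
   [89, 90, 91, 75, 58, 57, 73],
   [58, 74, 91, 76, 59],
   [91, 92, 93, 77, 60, 59, 75],
   [60, 76, 93, 78, 61],
   [93, 94, 95, 79, 62, 61, 77],
   [62, 78, 95, 80, 63],
   [95, 96, 81, 65, 64, 63, 79],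
   [80, 96, 97, 82, 66, 65],
   [97, 98, 83, 66, 81],
   [66, 82, 98, 85, 68, 67],
   [85, 99, 86, 70, 69, 68],
   [99, 84, 68, 83, 98],
   [99, 100, 87, 70, 84],
   [70, 86, 100, 88, 72, 71],
   [100, 101, 89, 72, 87],
   [72, 88, 101, 90, 74, 73],
   [101, 102, 91, 74, 89],
   [74, 90, 102, 92, 76, 75],
   [102, 103, 93, 76, 91],
   [76, 92, 103, 94, 78, 77],
   [103, 104, 95, 78, 93],
   [78, 94, 104, 96, 80, 79],
   [104, 97, 81, 80, 95],
   [96, 104, 105, 106, 98, 82, 81],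
   [107, 99, 85, 83, 82, 97, 106],
   [107, 108, 100, 86, 84, 85, 98],
   [86, 99, 108, 109, 101, 88, 87],
   [88, 100, 109, 110, 102, 90, 89],
   [90, 101, 110, 111, 103, 92, 91],
   [92, 102, 111, 112, 104, 94, 93],
   [94, 103, 112, 105, 97, 96, 95],
   [112, 113, 106, 97, 104],
   [105, 113, 107, 98, 97],
   [113, 108, 99, 98, 106],
   [107, 113, 109, 100, 99],
   [108, 113, 110, 101, 100],
   [109, 113, 111, 102, 101],
   [110, 113, 112, 103, 102],
   [111, 113, 105, 104, 103],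
   [108, 107, 106, 105, 112, 111, 110, 109]]

/-- the cyclic neighbour lists of the example as elements of `Fin 114` -/
def nbE (a : Fin 114) : List (Fin 114) := (tab.getD a.val []).map (Fin.ofNat 114)

theorem nbE_nodup : ∀ a, (nbE a).Nodup := by decide +kernel

theorem nbE_irrefl : ∀ a, a ∉ nbE a := by decide +kernel

theorem nbE_symm : ∀ a, ∀ b ∈ nbE a, a ∈ nbE b := by decide +kernel

theorem nbE_tri : ∀ a, ∀ b ∈ nbE a,
    nxt (nbE (nxt (nbE b) a)) b = a ∧ nxt (nbE a) (nxt (nbE b) a) = b := by decide +kernel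

theorem nbE_good : Good nbE where
  nodup := nbE_nodup
  irrefl := nbE_irrefl
  symm := nbE_symm
  tri := nbE_tri

theorem nbE_conn : ∀ a : Fin 114, 0 < a.val → ∃ b ∈ nbE a, b.val < a.val := by decide +kernel

theorem nbE_deg : ∀ a : Fin 114, 5 ≤ (nbE a).length := by decide +kernel

theorem nbE_sum : ((List.finRange 114).map (fun a => (nbE a).length)).sum = 672 := by
  decide +kernel

theorem nbE_555 : ((List.finRange 114).map
    (fun a => ((nbE a).filter (typ nbE 5 5 5 a)).length)).sum = 0 := by decide +kernel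

theorem nbE_556 : ((List.finRange 114).map
    (fun a => ((nbE a).filter (typ nbE 5 5 6 a)).length)).sum = 0 := by decide +kernel

theorem nbE_557 : ((List.finRange 114).map
    (fun a => ((nbE a).filter (typ nbE 5 5 7 a)).length)).sum = 48 := by decide +kernel

theorem nbE_566 : ((List.finRange 114).map
    (fun a => ((nbE a).filter (typ nbE 5 6 6 a)).length)).sum = 48 := by decide +kernel

/-- the example: a connected plane graph with minimum degree `5`, with `f_{5,5,5} = f_{5,5,6} = 0`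
and `f_{5,5,7} = f_{5,6,6} = 16` -/
theorem exists_example : ∃ (G : SimpleGraph (Fin 114)) (_ : DecidableRel G.Adj)
    (R : RotationSystem G), R.IsPlane ∧ (∀ v, 5 ≤ G.degree v) ∧
      R.f 5 5 5 = 0 ∧ R.f 5 5 6 = 0 ∧ R.f 5 5 7 = 16 ∧ R.f 5 6 6 = 16 := by
  refine ⟨gr nbE nbE_good, inferInstance, tabRot nbE nbE_good, ⟨?_, ?_⟩, ?_, ?_, ?_, ?_, ?_⟩
  · exact gr_connected nbE nbE_good (by norm_num) nbE_conn
  · have h1 := three_mul_face nbE nbE_good
    have h2 := two_mul_edge nbE nbE_good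
    rw [nbE_sum] at h1 h2
    rw [Nat.card_eq_fintype_card, Fintype.card_fin]
    omega
  · intro v
    rw [gr_degree]
    exact nbE_deg v
  · have h := three_mul_f nbE nbE_good 5 5 5
    rw [nbE_555] at h
    omega
  · have h := three_mul_f nbE nbE_good 5 5 6
    rw [nbE_556] at h
    omega
  · have h := three_mul_f nbE nbE_good 5 5 7
    rw [nbE_557] at h
    omega
  · have h := three_mul_f nbE nbE_good 5 6 6
    rw [nbE_566] at h
    omega

end Pool.Agent.Lib.MP_cadcf7_co
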