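import Pool.Agent.Lib.MP_cadcf7_co.Defs

namespace Pool.Agent.Lib.MP_cadcf7_co

open SimpleGraph

section Orbits

variable {α : Type} (φ : Equiv.Perm α)

theorem sameCycle_iff_of_cube (h3 : ∀ d, φ (φ (φ d)) = d) (d e : α) :
    φ.SameCycle d e ↔ e = d ∨ e = φ d ∨ e = φ (φ d) := by
  have hpow : φ ^ (3 : ℕ) = 1 := by
    ext x
    simp [pow_succ, h3]
  constructor
  · rintro ⟨i, rfl⟩
    have h : φ ^ i = φ ^ (i % 3) := by
      conv_lhs => rw [← Int.emod_add_mul_ediv i 3]
      rw [zpow_add, zpow_mul]
      have : φ ^ (3 : ℤ) = 1 := by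
        have := hpow
        exact_mod_cast this
      rw [this, one_zpow, mul_one]
    rw [h]
    have h1 : 0 ≤ i % 3 := Int.emod_nonneg _ (by norm_num)
    have h2 : i % 3 < 3 := Int.emod_lt_of_pos _ (by norm_num)
    interval_cases h' : i % 3
    · left; simp
    · right; left; simp
    · right; right
      have : φ ^ (2 : ℤ) = φ * φ := pow_two φ
      rw [this]; rfl
  · rintro (rfl | rfl | rfl)
    · exact Equiv.Perm.SameCycle.refl _ _
    · exact ⟨1, by simp⟩
    · refine ⟨2, ?_⟩
      have : φ ^ (2 : ℤ) = φ * φ := pow_two φ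
      rw [this]; rfl

theorem card_orbits [Fintype α] (h3 : ∀ d, φ (φ (φ d)) = d) (h1 : ∀ d, φ d ≠ d)
    (P : α → Prop) (hP : ∀ d, P d → P (φ d)) :
    3 * Nat.card {q : Quotient (Equiv.Perm.SameCycle.setoid φ) // ∃ d, Quotient.mk _ d = q ∧ P d}
      = Nat.card {d // P d} := by
  classical
  let S := {d // P d}
  let T := {q : Quotient (Equiv.Perm.SameCycle.setoid φ) // ∃ d, Quotient.mk _ d = q ∧ P d}
  let g : S → T := fun d => ⟨Quotient.mk _ d.1, d.1, rfl, d.2⟩
  have i1 : Finite T := inferInstance
  let i2 : Fintype T := Fintype.ofFinite T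
  have key : (Finset.univ : Finset S).card
      = ∑ q ∈ (Finset.univ : Finset T), (Finset.univ.filter (fun a : S => g a = q)).card :=
    Finset.card_eq_sum_card_fiberwise (fun _ _ => Finset.mem_coe.2 (Finset.mem_univ _))
  have hfib : ∀ q : T, (Finset.univ.filter (fun a : S => g a = q)).card = 3 := by
    rintro ⟨q, d, rfl, hd⟩
    have e1 : (⟨d, hd⟩ : S) ≠ ⟨φ d, hP _ hd⟩ := by
      intro h; exact h1 d (Subtype.ext_iff.1 h).symm
    have e2 : (⟨d, hd⟩ : S) ≠ ⟨φ (φ d), hP _ (hP _ hd)⟩ := by
      intro h
      have h' : d = φ (φ d) := Subtype.ext_iff.1 h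
      have := congrArg φ h'
      rw [h3] at this
      exact h1 d this
    have e3 : (⟨φ d, hP _ hd⟩ : S) ≠ ⟨φ (φ d), hP _ (hP _ hd)⟩ := by
      intro h; exact h1 (φ d) (Subtype.ext_iff.1 h).symm
    have : (Finset.univ.filter (fun a : S => g a = ⟨Quotient.mk _ d, d, rfl, hd⟩))
        = {⟨d, hd⟩, ⟨φ d, hP _ hd⟩, ⟨φ (φ d), hP _ (hP _ hd)⟩} := by
      ext ⟨e, he⟩
      simp only [Finset.mem_filter, Finset.mem_univ, true_and, Finset.mem_insert,
        Finset.mem_singleton]
      have a1 : g ⟨e, he⟩ = ⟨Quotient.mk _ d, d, rfl, hd⟩ ↔ φ.SameCycle d e := by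
        rw [Subtype.ext_iff]
        change (Quotient.mk _ e : Quotient (Equiv.Perm.SameCycle.setoid φ)) = Quotient.mk _ d ↔ _
        rw [Quotient.eq]
        change φ.SameCycle e d ↔ _
        exact Equiv.Perm.sameCycle_comm
      rw [a1, sameCycle_iff_of_cube φ h3, Subtype.ext_iff, Subtype.ext_iff, Subtype.ext_iff]
    rw [this, Finset.card_insert_of_notMem, Finset.card_insert_of_notMem, Finset.card_singleton]
    · simp only [Finset.mem_singleton]; exact e3
    · simp only [Finset.mem_insert, Finset.mem_singleton, not_or]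
      exact ⟨e1, e2⟩
  rw [Finset.sum_congr rfl (fun q _ => hfib q)] at key
  simp only [Finset.sum_const, smul_eq_mul] at key
  change 3 * Nat.card T = Nat.card S
  rw [Nat.card_eq_fintype_card, Nat.card_eq_fintype_card]
  simp only [Finset.card_univ] at key
  omega

end Orbits

section Table

variable {n : ℕ}

/-- successor of `b` in the cyclic list `l` -/
def nxt (l : List (Fin n)) (b : Fin n) : Fin n := l.getD ((l.idxOf b + 1) % l.length) b

theorem nxt_mem {l : List (Fin n)} {b : Fin n} (hb : b ∈ l) : nxt l b ∈ l := by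
  have hl : 0 < l.length := List.length_pos_of_mem hb
  have h : (l.idxOf b + 1) % l.length < l.length := Nat.mod_lt _ hl
  unfold nxt
  rw [List.getD_eq_getElem _ _ h]
  exact List.getElem_mem h

theorem nxt_iterate {l : List (Fin n)} (hl : l.Nodup) (i : ℕ) (hi : i < l.length) (k : ℕ) :
    (nxt l)^[k] (l[i]) = l[(i + k) % l.length]'(Nat.mod_lt _ (by omega)) := by
  induction k with
  | zero => simp [Nat.mod_eq_of_lt hi]
  | succ k ih =>
    rw [Function.iterate_succ_apply', ih]
    have hpos : 0 < l.length := by omega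
    have h2 : (i + k) % l.length < l.length := Nat.mod_lt _ hpos
    unfold nxt
    rw [hl.idxOf_getElem _ h2]
    have h : ((i + k) % l.length + 1) % l.length < l.length := Nat.mod_lt _ hpos
    rw [List.getD_eq_getElem _ _ h]
    congr 1
    rw [Nat.mod_add_mod]
    rfl

/-- a table of cyclic neighbour lists describing a triangulation -/
structure Good (nb : Fin n → List (Fin n)) : Prop where
  nodup : ∀ a, (nb a).Nodup
  irrefl : ∀ a, a ∉ nb a
  symm : ∀ a, ∀ b ∈ nb a, a ∈ nb b
  tri : ∀ a, ∀ b ∈ nb a, nxt (nb (nxt (nb b) a)) b = a ∧ nxt (nb a) (nxt (nb b) a) = b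

variable (nb : Fin n → List (Fin n)) (H : Good nb)

/-- the graph of a table -/
def gr (H : Good nb) : SimpleGraph (Fin n) where
  Adj a b := b ∈ nb a
  symm := ⟨fun a b h => H.symm a b h⟩
  loopless := ⟨fun a h => H.irrefl a h⟩

instance : DecidableRel (gr nb H).Adj := fun a b => inferInstanceAs (Decidable (b ∈ nb a))

theorem gr_adj {a b : Fin n} : (gr nb H).Adj a b ↔ b ∈ nb a := Iff.rfl

theorem gr_degree (a : Fin n) : (gr nb H).degree a = (nb a).length := by
  have : (gr nb H).neighborFinset a = (nb a).toFinset := by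
    ext b
    simp [gr_adj]
  rw [← SimpleGraph.card_neighborFinset_eq_degree, this,
    List.toFinset_card_of_nodup (H.nodup a)]

/-- the rotation of a table, as a function -/
def rotFun (d : (gr nb H).Dart) : (gr nb H).Dart :=
  ⟨(d.fst, nxt (nb d.fst) d.snd), nxt_mem d.adj⟩

theorem rotFun_iterate (d : (gr nb H).Dart) (k : ℕ) :
    ((rotFun nb H)^[k] d).fst = d.fst ∧
      ((rotFun nb H)^[k] d).snd = (nxt (nb d.fst))^[k] d.snd := by
  induction k with
  | zero => exact ⟨rfl, rfl⟩
  | succ k ih =>
    rw [Function.iterate_succ_apply', Function.iterate_succ_apply']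
    constructor
    · exact ih.1
    · change nxt (nb ((rotFun nb H)^[k] d).fst) ((rotFun nb H)^[k] d).snd = _
      rw [ih.1, ih.2]

theorem rotFun_injective : Function.Injective (rotFun nb H) := by
  intro d e h
  have h1 : d.fst = e.fst := congrArg (fun d => d.fst) h
  have h2 : nxt (nb d.fst) d.snd = nxt (nb e.fst) e.snd := congrArg (fun d => d.snd) h
  have h3 := (H.tri d.snd d.fst (H.symm _ _ d.adj)).1
  have h4 := (H.tri e.snd e.fst (H.symm _ _ e.adj)).1
  have h5 : d.snd = e.snd := by
    rw [← h3, ← h4, h2, h1]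
  exact SimpleGraph.Dart.ext _ _ (Prod.ext h1 h5)

/-- the rotation system of a table -/
noncomputable def tabRot : RotationSystem (gr nb H) where
  rot := Equiv.ofBijective (rotFun nb H) (Finite.injective_iff_bijective.1 (rotFun_injective nb H))
  rot_fst d := rfl
  cyclic d e hde := by
    have hd : d.snd ∈ nb d.fst := d.adj
    have he : e.snd ∈ nb d.fst := by rw [hde]; exact e.adj
    have hi := List.idxOf_lt_length_iff.2 hd
    have hj := List.idxOf_lt_length_iff.2 he
    refine ⟨((nb d.fst).length + (nb d.fst).idxOf e.snd - (nb d.fst).idxOf d.snd : ℕ), ?_⟩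
    rw [zpow_natCast, ← Equiv.Perm.iterate_eq_pow]
    change (rotFun nb H)^[_] d = e
    obtain ⟨h1, h2⟩ := rotFun_iterate nb H d
      ((nb d.fst).length + (nb d.fst).idxOf e.snd - (nb d.fst).idxOf d.snd)
    have h3 := nxt_iterate (H.nodup d.fst) _ hi
      ((nb d.fst).length + (nb d.fst).idxOf e.snd - (nb d.fst).idxOf d.snd)
    rw [List.getElem_idxOf hi] at h3
    apply SimpleGraph.Dart.ext
    apply Prod.ext
    · exact h1.trans hde
    · refine h2.trans (h3.trans ?_)
      have h4 : ((nb d.fst).idxOf d.snd + ((nb d.fst).length + (nb d.fst).idxOf e.snd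
          - (nb d.fst).idxOf d.snd)) % (nb d.fst).length = (nb d.fst).idxOf e.snd := by
        rw [show (nb d.fst).idxOf d.snd + ((nb d.fst).length + (nb d.fst).idxOf e.snd
          - (nb d.fst).idxOf d.snd) = (nb d.fst).length + (nb d.fst).idxOf e.snd by omega]
        rw [Nat.add_mod_left, Nat.mod_eq_of_lt hj]
      simp only [h4]
      exact List.getElem_idxOf hj

theorem face_fst (d : (gr nb H).Dart) : ((tabRot nb H).facePerm d).fst = d.snd := rfl

theorem face_snd (d : (gr nb H).Dart) :
    ((tabRot nb H).facePerm d).snd = nxt (nb d.snd) d.fst := rfl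

theorem face_face_fst (d : (gr nb H).Dart) :
    ((tabRot nb H).facePerm ((tabRot nb H).facePerm d)).fst = nxt (nb d.snd) d.fst := rfl

theorem face_face_snd (d : (gr nb H).Dart) :
    ((tabRot nb H).facePerm ((tabRot nb H).facePerm d)).snd = d.fst := by
  rw [face_snd, face_fst, face_snd]
  exact (H.tri d.fst d.snd d.adj).1

theorem face_cube (d : (gr nb H).Dart) :
    (tabRot nb H).facePerm ((tabRot nb H).facePerm ((tabRot nb H).facePerm d)) = d := by
  apply SimpleGraph.Dart.ext
  apply Prod.ext
  · exact face_face_snd nb H d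
  · change ((tabRot nb H).facePerm _).snd = d.snd
    rw [face_snd, face_face_snd, face_face_fst]
    exact (H.tri d.fst d.snd d.adj).2

theorem face_ne (d : (gr nb H).Dart) : (tabRot nb H).facePerm d ≠ d := by
  intro h
  have h1 : ((tabRot nb H).facePerm d).fst = d.fst := by rw [h]
  rw [face_fst] at h1
  exact d.adj.ne h1.symm

/-- the number of darts with a property -/
theorem card_darts (Q : Fin n → Fin n → Bool) :
    Nat.card {d : (gr nb H).Dart // Q d.fst d.snd = true}
      = ((List.finRange n).map (fun a => ((nb a).filter (Q a)).length)).sum := by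
  classical
  have e : {d : (gr nb H).Dart // Q d.fst d.snd = true}
      ≃ (Σ a : Fin n, {b : Fin n // b ∈ ((nb a).filter (Q a)).toFinset}) :=
    { toFun := fun d => ⟨d.1.fst, d.1.snd, by
        rw [List.mem_toFinset, List.mem_filter]
        exact ⟨d.1.adj, d.2⟩⟩
      invFun := fun x => ⟨⟨(x.1, x.2.1), by
        have := x.2.2
        rw [List.mem_toFinset, List.mem_filter] at this
        exact this.1⟩, by
        have := x.2.2
        rw [List.mem_toFinset, List.mem_filter] at this
        exact this.2⟩
      left_inv := fun d => rfl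
      right_inv := fun x => rfl }
  rw [Nat.card_congr e, Nat.card_sigma, ← List.sum_toFinset _ (List.nodup_finRange n)]
  rw [List.toFinset_finRange]
  apply Finset.sum_congr rfl
  intro a _
  rw [Nat.card_eq_fintype_card, Fintype.card_coe,
    List.toFinset_card_of_nodup ((H.nodup a).filter _)]

/-- the type test of a dart: the degrees of the three vertices of the face of the dart -/
def typ (i j k : ℕ) (a b : Fin n) : Bool :=
  decide (({(nb a).length, (nb b).length, (nb (nxt (nb b) a)).length} : Multiset ℕ) = {i, j, k})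

theorem typ_face (i j k : ℕ) (d : (gr nb H).Dart) (h : typ nb i j k d.fst d.snd = true) :
    typ nb i j k ((tabRot nb H).facePerm d).fst ((tabRot nb H).facePerm d).snd = true := by
  unfold typ at h ⊢
  rw [decide_eq_true_iff] at h ⊢
  rw [← h, face_fst, face_snd]
  have h1 : nxt (nb (nxt (nb d.snd) d.fst)) d.snd = d.fst := face_face_snd nb H d
  rw [h1]
  generalize (nb d.fst).length = x
  generalize (nb d.snd).length = y
  generalize (nb (nxt (nb d.snd) d.fst)).length = z
  change y ::ₘ z ::ₘ {x} = x ::ₘ y ::ₘ {z}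
  rw [Multiset.cons_swap x y]
  congr 1
  exact Multiset.pair_comm z x

theorem three_mul_f (i j k : ℕ) :
    3 * (tabRot nb H).f i j k
      = ((List.finRange n).map (fun a => ((nb a).filter (typ nb i j k a)).length)).sum := by
  rw [← card_darts nb H, ← card_orbits (tabRot nb H).facePerm (face_cube nb H) (face_ne nb H)
    (fun d => typ nb i j k d.fst d.snd = true) (typ_face nb H i j k)]
  congr 1
  apply Nat.card_congr
  apply Equiv.subtypeEquivRight
  intro F
  unfold RotationSystem.IsTri
  apply exists_congr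
  intro d
  apply and_congr Iff.rfl
  rw [gr_degree, gr_degree, gr_degree, face_fst, face_face_fst]
  unfold typ
  rw [decide_eq_true_iff]
  exact ⟨fun h => h.2, fun h => ⟨face_cube nb H d, h⟩⟩

theorem three_mul_face :
    3 * Nat.card (tabRot nb H).Face = ((List.finRange n).map (fun a => (nb a).length)).sum := by
  have h1 := card_darts nb H (fun _ _ => true)
  have h2 := card_orbits (tabRot nb H).facePerm (face_cube nb H) (face_ne nb H)
    (fun d => (fun _ _ => true : Fin n → Fin n → Bool) d.fst d.snd = true) (fun _ _ => rfl)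
  rw [h1] at h2
  have h3 : ((List.finRange n).map (fun a => ((nb a).filter (fun _ => true)).length)).sum
      = ((List.finRange n).map (fun a => (nb a).length)).sum := by simp
  rw [h3] at h2
  rw [← h2]
  congr 1
  apply Nat.card_congr
  refine (Equiv.subtypeUnivEquiv ?_).symm
  intro q
  obtain ⟨d, rfl⟩ := Quotient.exists_rep q
  exact ⟨d, rfl, rfl⟩

theorem two_mul_edge :
    2 * Nat.card (gr nb H).edgeSet = ((List.finRange n).map (fun a => (nb a).length)).sum := by
  classical
  rw [Nat.card_eq_fintype_card, ← SimpleGraph.edgeFinset_card,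
    ← SimpleGraph.sum_degrees_eq_twice_card_edges]
  rw [← List.sum_toFinset _ (List.nodup_finRange n), List.toFinset_finRange]
  apply Finset.sum_congr rfl
  intro a _
  exact gr_degree nb H a

theorem gr_connected (h0 : 0 < n) (hc : ∀ a : Fin n, 0 < a.val → ∃ b ∈ nb a, b.val < a.val) :
    (gr nb H).Connected := by
  have key : ∀ m : ℕ, ∀ a : Fin n, a.val = m → (gr nb H).Reachable a ⟨0, h0⟩ := by
    intro m
    induction m using Nat.strong_induction_on with
    | _ m ih =>
      intro a ha
      by_cases hm : 0 < a.val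
      · obtain ⟨b, hb, hlt⟩ := hc a hm
        have h1 : (gr nb H).Adj a b := hb
        exact h1.reachable.trans (ih b.val (by omega) b rfl)
      · have : a = ⟨0, h0⟩ := Fin.ext (by simp; omega)
        rw [this]
  exact { preconnected := fun a b => (key _ a rfl).trans (key _ b rfl).symm
          nonempty := ⟨⟨0, h0⟩⟩ }

end Table

end Pool.Agent.Lib.MP_cadcf7_co
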